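import Pool.Agent.H27M.FinB

open Pool.Agent.H27M

namespace Pool.Agent.Results.MP_337c4e_co.AffineExtremal

/-- A non-symmetric matroidal parameter set with `lam ≥ 6` is the parameter set of the planes of
an affine 3-space of order `lam - 1`, or `(v - 1) ^ 2 ≤ (lam - 1) ^ 5`; in the latter case it
belongs to one of the two series with `lam = l ^ 2 + 1` or `lam = l ^ 3 + l + 1`, or
`(v - 1) ^ 4 ≤ 16 lam ^ 9`. If `v ≥ 2 lam (lam - 1)`, all parameters are given by two numbers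
`l ≤ K` with divisibility conditions, and the line size `l` is `lam - 1` or at most
`1 + sqrt lam`. -/
theorem result (b v r k lam : ℕ) (h : Matroidal b v r k lam) (hb : v < b) (hlam : 6 ≤ lam) :
    ((v = (lam - 1) ^ 3 ∧ k = (lam - 1) ^ 2 ∧ r = (lam - 1) ^ 2 + (lam - 1) + 1 ∧
        b = (lam - 1) ^ 3 + (lam - 1) ^ 2 + (lam - 1)) ∨
      ((v - 1) ^ 2 ≤ (lam - 1) ^ 5 ∧
        ((∃ l, 2 ≤ l ∧ (lam = l ^ 2 + 1 ∨ lam = l ^ 3 + l + 1) ∧ k = 1 + lam * (l - 1) ∧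
          r = 1 + lam * (lam - 1) ∧ v = 1 + (l - 1) * r ∧ b * k = v * r) ∨
        (v - 1) ^ 4 ≤ 16 * lam ^ 9))) ∧
    (v < 2 * lam * (lam - 1) ∨
      ∃ l K, 2 ≤ l ∧ l ≤ K ∧ K ≤ lam ∧ k = 1 + K * (l - 1) ∧
        v = 1 + (l - 1) * (1 + lam * (K - 1)) ∧
        r * K = lam * (1 + lam * (K - 1)) ∧ l ∣ K * (K - 1) ∧ K ∣ lam * (lam - 1) ∧
        ((l + 1 = lam ∧ K = lam) ∨ (l - 1) ^ 2 ≤ lam) ∧
        (K = lam → l + 1 = lam ∨ lam = l ^ 2 + 1 ∨ lam = l ^ 3 + l + 1) ∧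
        (K + 1 = lam → l = 2)) := by
  obtain ⟨M, Bl, hE, hBl, hbc, hk, hr, hl⟩ := h
  have hd := hd_of_matroid hE hBl hk hr hl
  have := hd.final (by rw [Fintype.card_fin, hbc]; exact hb) hlam
  rw [Fintype.card_fin, hbc] at this
  exact this

end Pool.Agent.Results.MP_337c4e_co.AffineExtremal
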